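import Mathlib
import Pool.Agent.R204.MD

set_option autoImplicit false

/-!
# Metric mean dimension of maps which are Hölder for every exponent

The definitions (`IsSep`, `sepCard`, `sepRate`, `upperMdim`, `lowerMdim`, `IsHolder`) are at the beginning of
`Pool/Agent/R204/MD.lean`.
-/

namespace Pool.Agent.Results.MP_d02d3c_an.AllExponents

open Pool.Agent.R204.MD
open scoped unitInterval

/-- If `φ : [0, 1] → [0, 1]` is `α`-Hölder continuous for every `α ∈ (0, 1)`, then its upper and lower metric
mean dimensions are zero. -/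
theorem result (φ : I → I) (hφ : ∀ α : ℝ, 0 < α → α < 1 → IsHolder φ α) :
    upperMdim φ = 0 ∧ lowerMdim φ = 0 := by
  have h1 : upperMdim φ ≤ 0 := by
    refine EReal.le_of_forall_lt_iff_le.mp fun δ hδ => ?_
    have hδ' : 0 < δ := by exact_mod_cast hδ
    set ε := min δ (1 / 2) with hε
    have hε0 : 0 < ε := lt_min hδ' (by norm_num)
    have hε1 : ε ≤ 1 / 2 := min_le_right _ _
    have h2 := upperMdim_le (φ := φ) (α := 1 - ε) (by linarith) (by linarith)
      (hφ (1 - ε) (by linarith) (by linarith))
    refine h2.trans ?_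
    rw [EReal.coe_le_coe_iff]
    have : ε ≤ δ := min_le_left _ _
    linarith
  have h2 := lowerMdim_nonneg φ
  have h3 := lower_le_upper φ
  exact ⟨le_antisymm h1 (h2.trans h3), le_antisymm (h3.trans h1) h2⟩

end Pool.Agent.Results.MP_d02d3c_an.AllExponents
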